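import Pool.Agent.Lib_MP_3de5be.Gap
import Pool.Agent.Lib_MP_1c78a5_ghost.WH

/-!
# Maximal complex equiangular tight frames from Weyl-Heisenberg SICs
-/

set_option autoImplicit false

namespace ETFMax

open Module Pool.Agent.Results.MP_3de5be_an.Gap Finset
open scoped ComplexConjugate

/-- If there is an equiangular unit norm system with the Welch angle then `c^frame` equals the Welch bound. -/
theorem cFrame_eq_of_etf {N d : ℕ} (hN : 2 ≤ N) (hd : 1 ≤ d) (hdN : d < N)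
    (g : Fin N → EuclideanSpace ℂ (Fin d)) (hunit : ∀ l, ‖g l‖ = 1)
    (hang : ∀ l m, l ≠ m → ‖(inner ℂ (g l) (g m) : ℂ)‖ ^ 2 =
      ((N : ℝ) - d) / (d * ((N : ℝ) - 1))) :
    cFrame N d = Real.sqrt (((N : ℝ) - d) / (d * ((N : ℝ) - 1))) := by
  have hdR : (0 : ℝ) < d := by exact_mod_cast hd
  have hNdR : (d : ℝ) < N := by exact_mod_cast hdN
  have hNR : (0 : ℝ) < N := by exact_mod_cast (by omega : 0 < N)
  have hN1R : (0 : ℝ) < (N : ℝ) - 1 := by
    have : (1 : ℝ) < N := by exact_mod_cast (by omega : 1 < N)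
    linarith
  obtain ⟨α, hα⟩ : ∃ α, α = ((N : ℝ) - d) / (d * ((N : ℝ) - 1)) := ⟨_, rfl⟩
  have hαpos : 0 < α := by
    rw [hα]; exact div_pos (by linarith) (mul_pos hdR hN1R)
  rw [← hα] at hang ⊢
  let i0 : Fin N := ⟨0, by omega⟩
  let i1 : Fin N := ⟨1, by omega⟩
  have hi01 : i0 ≠ i1 := by
    intro h
    have := congrArg Fin.val h
    simp [i0, i1] at this
  -- lower bound
  have hlow : ∀ h : Fin N → EuclideanSpace ℂ (Fin d), (∀ l, ‖h l‖ = 1) →
      Real.sqrt α ≤ coherence h := by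
    intro h hh
    by_contra hcon
    push Not at hcon
    have h1 : ∀ l m, l ≠ m → ‖(inner ℂ (h l) (h m) : ℂ)‖ ^ 2 < α := by
      intro l m hlm
      have h2 := lt_of_le_of_lt (inner_le_coherence h hlm) hcon
      calc ‖(inner ℂ (h l) (h m) : ℂ)‖ ^ 2 < (Real.sqrt α) ^ 2 :=
            pow_lt_pow_left₀ h2 (norm_nonneg _) (by norm_num)
        _ = α := Real.sq_sqrt hαpos.le
    have h3 := (welch_eq hd hN h α hα hh (fun l m hlm => (h1 l m hlm).le)).1 i0 i1 hi01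
    exact absurd h3 (h1 i0 i1 hi01).ne
  -- the frame
  obtain ⟨-, htight⟩ := welch_eq hd hN g α hα hunit (fun l m hlm => (hang l m hlm).le)
  have hspan : Submodule.span ℂ (Set.range g) = ⊤ := by
    rw [eq_top_iff]
    intro v _
    have h1 : v = ((d : ℂ) / N) • ∑ l, (inner ℂ (g l) v : ℂ) • g l := by
      rw [htight v, smul_smul]
      have hdC : (d : ℂ) ≠ 0 := by exact_mod_cast hdR.ne'
      have hNC : (N : ℂ) ≠ 0 := by exact_mod_cast hNR.ne'
      have : (d : ℂ) / N * (N / d) = 1 := by field_simp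
      rw [this, one_smul]
    rw [h1]
    refine Submodule.smul_mem _ _ (Submodule.sum_mem _ fun l _ => Submodule.smul_mem _ _ ?_)
    exact Submodule.subset_span ⟨l, rfl⟩
  have hcoh : coherence g = Real.sqrt α := by
    apply le_antisymm
    · unfold coherence
      have : Nonempty {p : Fin N × Fin N // p.1 ≠ p.2} := ⟨⟨(i0, i1), hi01⟩⟩
      refine ciSup_le fun p => ?_
      have h1 := hang p.1.1 p.1.2 p.2
      rw [← h1, Real.sqrt_sq (norm_nonneg _)]
    · exact hlow g hunit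
  apply le_antisymm
  · refine csInf_le ⟨0, ?_⟩ ⟨g, hunit, hspan, hcoh⟩
    rintro m ⟨h, -, -, rfl⟩
    exact coherence_nonneg h
  · refine le_csInf ⟨_, g, hunit, hspan, rfl⟩ ?_
    rintro m ⟨h, hh, -, rfl⟩
    exact hlow h hh

/-- The same for the Naimark complement. -/
theorem cFrame_compl_of_etf {N d : ℕ} (hN : 2 ≤ N) (hd : 1 ≤ d) (hdN : d < N)
    (g : Fin N → EuclideanSpace ℂ (Fin d)) (hunit : ∀ l, ‖g l‖ = 1)
    (hang : ∀ l m, l ≠ m → ‖(inner ℂ (g l) (g m) : ℂ)‖ ^ 2 =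
      ((N : ℝ) - d) / (d * ((N : ℝ) - 1))) :
    cFrame N (N - d) = Real.sqrt (((N : ℝ) - (N - d : ℕ)) / ((N - d : ℕ) * ((N : ℝ) - 1))) := by
  obtain ⟨-, htight⟩ := welch_eq hd hN g _ rfl hunit (fun l m hlm => (hang l m hlm).le)
  have hfin : finrank ℂ (EuclideanSpace ℂ (Fin d)) = d := by simp
  obtain ⟨E', y, hE', hy1, hy2, -⟩ := compl hd hdN hfin g _ rfl hunit hang htight
  let b := (stdOrthonormalBasis ℂ E').reindex (finCongr hE')
  refine cFrame_eq_of_etf hN (by omega) (by omega) (fun l => b.repr (y l)) (fun l => ?_)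
    (fun l m hlm => ?_)
  · rw [b.repr.norm_map, hy1]
  · rw [b.repr.inner_map_map, hy2 l m hlm]

/-- The vectors `D_{a,b} φ`. -/
noncomputable def vec {d : ℕ} [NeZero d] (φ : ZMod d → ℂ) (p : ZMod d × ZMod d) :
    ZMod d → ℂ := fun i => ZMod.stdAddChar (p.2 * (i - p.1)) * φ (i - p.1)

theorem norm_chi {d : ℕ} [NeZero d] (x : ZMod d) : ‖(ZMod.stdAddChar x : ℂ)‖ = 1 := by
  rw [ZMod.stdAddChar_apply]
  exact Circle.norm_coe _

theorem conj_chi {d : ℕ} [NeZero d] (x : ZMod d) :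
    conj (ZMod.stdAddChar x : ℂ) = ZMod.stdAddChar (-x) := by
  rw [← AddChar.map_neg_eq_conj]

theorem norm_dot {d : ℕ} [NeZero d] (φ : ZMod d → ℂ) (p q : ZMod d × ZMod d) :
    ‖∑ i, conj (vec φ p i) * vec φ q i‖ =
      ‖Ghost.braket φ (Ghost.displacement d (q.1 - p.1) (q.2 - p.2)) φ‖ := by
  unfold Ghost.braket
  rw [Ghost.disp_mulVec]
  have h1 : ∑ i, conj (vec φ p i) * vec φ q i = ZMod.stdAddChar (-(p.2 * (q.1 - p.1))) *
      dotProduct (star φ) (fun i => ZMod.stdAddChar ((q.2 - p.2) * (i - (q.1 - p.1))) *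
        φ (i - (q.1 - p.1))) := by
    rw [dotProduct, mul_sum, ← Equiv.sum_comp (Equiv.addRight p.1)]
    refine sum_congr rfl fun j _ => ?_
    simp only [vec, Equiv.coe_addRight, add_sub_cancel_right, map_mul, conj_chi, Pi.star_apply,
      RCLike.star_def]
    have e1 : j + p.1 - q.1 = j - (q.1 - p.1) := by ring
    rw [e1]
    have e2 : (ZMod.stdAddChar (-(p.2 * j)) : ℂ) * ZMod.stdAddChar (q.2 * (j - (q.1 - p.1))) =
        ZMod.stdAddChar (-(p.2 * (q.1 - p.1))) *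
          ZMod.stdAddChar ((q.2 - p.2) * (j - (q.1 - p.1))) := by
      rw [← AddChar.map_add_eq_mul, ← AddChar.map_add_eq_mul]
      congr 1
      ring
    linear_combination (conj (φ j) * φ (j - (q.1 - p.1))) * e2
  rw [h1, norm_mul, norm_chi, one_mul]

/-- **Maximal complex equiangular tight frames** from a Weyl-Heisenberg SIC. -/
theorem of_sic (d : ℕ) [NeZero d] (hd : 2 ≤ d) (φ : ZMod d → ℂ) (hφ : ∑ i, ‖φ i‖ ^ 2 = 1)
    (hsic : ∀ a b : ZMod d, ¬(a = 0 ∧ b = 0) →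
      ‖Ghost.braket φ (Ghost.displacement d a b) φ‖ ^ 2 = 1 / (d + 1)) :
    cFrame (d ^ 2) d = Real.sqrt ((((d ^ 2 : ℕ) : ℝ) - d) / (d * (((d ^ 2 : ℕ) : ℝ) - 1))) ∧
    cFrame (d ^ 2) (d ^ 2 - d) = Real.sqrt ((((d ^ 2 : ℕ) : ℝ) - (d ^ 2 - d : ℕ)) /
      ((d ^ 2 - d : ℕ) * (((d ^ 2 : ℕ) : ℝ) - 1))) := by
  classical
  have hcard : Fintype.card (ZMod d × ZMod d) = d ^ 2 := by
    rw [Fintype.card_prod, ZMod.card, sq]
  let e : Fin (d ^ 2) ≃ ZMod d × ZMod d := (Fintype.equivFinOfCardEq hcard).symm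
  let c : Fin d ≃ ZMod d := (Fintype.equivFinOfCardEq (ZMod.card d)).symm
  let g : Fin (d ^ 2) → EuclideanSpace ℂ (Fin d) := fun l => WithLp.toLp 2 (fun k => vec φ (e l) (c k))
  have hinner : ∀ l m, (inner ℂ (g l) (g m) : ℂ) = ∑ i, conj (vec φ (e l) i) * vec φ (e m) i := by
    intro l m
    rw [PiLp.inner_apply, ← Equiv.sum_comp c]
    refine sum_congr rfl fun k _ => ?_
    simp [g, mul_comm]
  have hunit : ∀ l, ‖g l‖ = 1 := by
    intro l
    have h1 : ‖g l‖ ^ 2 = 1 := by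
      rw [EuclideanSpace.norm_sq_eq]
      simp only [g, vec]
      have h2 : ∀ k : Fin d, ‖(ZMod.stdAddChar ((e l).2 * (c k - (e l).1)) : ℂ) * φ (c k - (e l).1)‖ ^ 2
          = ‖φ (c k - (e l).1)‖ ^ 2 := by
        intro k
        rw [norm_mul, norm_chi, one_mul]
      rw [sum_congr rfl (fun k _ => h2 k), Equiv.sum_comp c (fun i => ‖φ (i - (e l).1)‖ ^ 2),
        ← hφ]
      exact Equiv.sum_comp (Equiv.subRight (e l).1) (fun i => ‖φ i‖ ^ 2)
    nlinarith [norm_nonneg (g l)]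
  have hd1 : (1 : ℝ) < d := by exact_mod_cast (by omega : 1 < d)
  have hang : ∀ l m, l ≠ m → ‖(inner ℂ (g l) (g m) : ℂ)‖ ^ 2 =
      (((d ^ 2 : ℕ) : ℝ) - d) / (d * (((d ^ 2 : ℕ) : ℝ) - 1)) := by
    intro l m hlm
    rw [hinner, norm_dot, hsic]
    · have h1 : (d : ℝ) ≠ 0 := by positivity
      have h2 : (d : ℝ) - 1 ≠ 0 := by linarith
      have h3 : (d : ℝ) + 1 ≠ 0 := by positivity
      have h4 : ((d ^ 2 : ℕ) : ℝ) - 1 = (d - 1) * (d + 1) := by push_cast; ring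
      rw [h4]
      push_cast
      field_simp
    · rintro ⟨h1, h2⟩
      apply hlm
      apply e.injective
      exact (Prod.ext (sub_eq_zero.1 h1) (sub_eq_zero.1 h2)).symm
  have hlt : d < d ^ 2 := by nlinarith
  exact ⟨cFrame_eq_of_etf (by nlinarith) (by omega) hlt g hunit hang,
    cFrame_compl_of_etf (by nlinarith) (by omega) hlt g hunit hang⟩

end ETFMax
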